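import Pool.Agent.W684.Ext2Main
import Pool.Agent.W684.FM.Ambient

/-!
# It is consistent that `Ext²(c₀(ω₁), c₀) = 0`

* There is a preordered set of forcing conditions which preserves all cardinals and forces
  Martin's axiom for `ℵ₁` dense sets.
* Under Martin's axiom for `ℵ₁` dense sets, `Ext²(c₀(ω₁), c₀) = 0`.

The forcing language is the one of `Pool.Agent.Helper669.Forcing`: a sentence is the set of the
conditions which force it, `fnot`, `fand`, `fall` are the primitive connectives and `fimp`, `fex`
are defined from them classically; a name for a subset of a ground model set `X` is a map sending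
`x : X` to a set of conditions, and `meets N` says that the generic filter meets `N`. The sentence
`MartinHolds P X` is the translation into the forcing language of the proposition `MartinFor X`
(both are in `Pool.Agent.W684.FM.Defs`), which is Martin's axiom for preorders with underlying set
`X` and `X`-indexed families of dense sets. The theorem also records that `MartinFor Om1`, where
`Om1` is the set of the countable ordinals, is equivalent to the usual form of Martin's axiom for
`ℵ₁` dense sets, `Pool.Agent.W684.MartinAxiomAleph1`.
-/

set_option autoImplicit false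

namespace Pool.Agent.Results.MP_c1e359_an.ForcedExtTwo

open Cardinal Pool.Agent.W684 Pool.Agent.Helper669.Forcing Pool.Agent.W684.FM
open scoped ZeroAtInfty

/-- There is a preordered set `P` of forcing conditions such that every condition forces that all
cardinals of the ground model are cardinals, that `ω₁` is preserved and that Martin's axiom for
`ℵ₁` dense sets holds. This axiom (whose two formulations are equivalent) implies the following.
Let `Γ` be a (discrete) set of cardinality `ℵ₁`, so that `C₀(Γ, ℝ)` is `c₀(ω₁)`. Then
`c₀ = C₀(ℕ, ℝ)` has an injective resolution by spaces `ℓ_∞(Γ')`, and `Ext²(c₀(ω₁), c₀) = 0` for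
each such resolution. -/
theorem result :
    (∃ (P : Type) (_ : Preorder P), Nonempty P ∧ ∀ p : P,
      p ∈ CardinalsPreserved.{0, 0} P ∧ p ∈ OmegaOnePreserved P ∧ p ∈ MartinHolds P Om1) ∧
    (MartinFor Om1 ↔ MartinAxiomAleph1) ∧
    (MartinAxiomAleph1 → ∀ (Γ : Type) [TopologicalSpace Γ] [DiscreteTopology Γ], #Γ = ℵ₁ →
      Nonempty (InjRes.{0, 0} C₀(ℕ, ℝ)) ∧
        ∀ I : InjRes.{0, 0} C₀(ℕ, ℝ), I.ExtSuccVanishes C₀(Γ, ℝ) 1) := by
  refine ⟨exists_forcing Om1, martinFor_om1_iff, fun hMA Γ _ _ hΓ =>
    ⟨exists_injRes _, fun I => ?_⟩⟩
  obtain ⟨D, hD, hDc⟩ := dense_c0 Γ hΓ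
  exact ext2_main hMA I _ D hD hDc

end Pool.Agent.Results.MP_c1e359_an.ForcedExtTwo
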